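import Mathlib

/-!
Codes of redundancy `r + 3` and length `q + r + 1` over an alphabet of size `q`: words far from the
code.
-/

open Finset Function

namespace Pool.Agent.FS.Supercode

variable {K A : Type} [Fintype K] [DecidableEq K] [Fintype A] [DecidableEq A] {C : Set (K → A)}
  {r : ℕ} {x y : K → A} {R S T : Finset K}

/-- Some codeword agrees with `x` outside `T`. -/
def Near (C : Set (K → A)) (x : K → A) (T : Finset K) : Prop := ∃ c ∈ C, ∀ m, m ∉ T → c m = x m

/-- No set of at most `r + 2` positions containing `S` allows to correct `x`. -/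
def Far (C : Set (K → A)) (r : ℕ) (x : K → A) (S : Finset K) : Prop :=
  ∀ T, S ⊆ T → T.card ≤ r + 2 → ¬Near C x T

structure Mds (C : Set (K → A)) (r : ℕ) : Prop where
  uniq : ∀ c ∈ C, ∀ c' ∈ C, ∀ T : Finset K, T.card ≤ r + 3 → (∀ m, m ∉ T → c m = c' m) → c = c'
  ex : ∀ (x : K → A) (T : Finset K), T.card = r + 3 → Near C x T
  card : Fintype.card K = Fintype.card A + r + 1

section
omit [Fintype K] [DecidableEq K] [Fintype A] [DecidableEq A]

lemma Near.mono (h : Near C x S) (hS : S ⊆ T) : Near C x T :=
  let ⟨c, hc, h⟩ := h; ⟨c, hc, fun m hm => h m fun t => hm (hS t)⟩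

lemma Near.swap (h : Near C x S) (hS : ∀ m, m ∉ S → x m = y m) : Near C y S :=
  let ⟨c, hc, h⟩ := h; ⟨c, hc, fun m hm => (h m hm).trans (hS m hm)⟩

lemma Far.mono (h : Far C r x S) (hS : S ⊆ T) : Far C r x T :=
  fun U h1 h2 => h U (hS.trans h1) h2

lemma Far.swap (h : Far C r x S) (hS : ∀ m, m ∉ S → x m = y m) : Far C r y S :=
  fun U h1 h2 h3 => h U h1 h2 (h3.swap fun m hm => (hS m fun t => hm (h1 t)).symm)

end

omit [Fintype K] [Fintype A] [DecidableEq A] in
lemma exists_near (hR : R.card = r + 1) (k : K) (h : ¬Far C r x R) : ∃ l, Near C x (insert l R) := by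
  simp only [Far, not_forall, not_not] at h
  obtain ⟨T, h1, h2, h3⟩ := h
  have h4 := card_sdiff_add_card_eq_card h1
  have : Nonempty K := ⟨k⟩
  obtain ⟨l, hl⟩ := card_le_one_iff_subset_singleton.1 (show (T \ R).card ≤ 1 by omega)
  refine ⟨l, h3.mono fun m hm => ?_⟩
  by_cases h5 : m ∈ R
  · exact mem_insert_of_mem h5
  · exact mem_insert.2 (Or.inl (mem_singleton.1 (hl (mem_sdiff.2 ⟨hm, h5⟩))))

omit [Fintype K] [Fintype A] [DecidableEq A] in
lemma Far.not_near (h : Far C r x R) (hR : R.card ≤ r + 1) (l : K) : ¬Near C x (insert l R) :=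
  h _ (subset_insert _ _) ((card_insert_le _ _).trans (by omega))

lemma Mds.line_unique (H : Mds C r) (hR : R.card = r + 1) {k : K} (hk : k ∉ R) {a b : A}
    (ha : Far C r (update x k a) R) (hb : Far C r (update x k b) R) : a = b := by
  by_contra hab
  have h1 : ∀ l ∈ (insert k R)ᶜ, Near C x (insert l (insert k R)) := fun l hl =>
    H.ex x _ (by rw [card_insert_of_notMem (mem_compl.1 hl), card_insert_of_notMem hk, hR])
  have : Nonempty (K → A) := ⟨x⟩
  simp only [Near] at h1
  choose! c hc h5 using h1
  have h6 : ∀ l ∈ (insert k R)ᶜ, ∀ e, Far C r (update x k e) R → c l k ≠ e :=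
    fun l hl e he h => he.not_near hR.le l ⟨c l, hc l hl, fun m hm => by
      by_cases h2 : m = k
      · rw [h2, update_self, h]
      · rw [update_of_ne h2, h5 l hl m (by simp at hm; simp [hm, h2])]⟩
  have h7 := card_le_card_of_injOn (s := (insert k R)ᶜ) (t := ({a, b} : Finset A)ᶜ) (fun l => c l k)
    (fun l hl => by simp [h6 l hl a ha, h6 l hl b hb]) fun l hl l' hl' h => by
      by_contra hne
      have h8 : c l = c l' := H.uniq _ (hc l hl) _ (hc l' hl') (insert l (insert l' R))
        ((card_insert_le _ _).trans (Nat.succ_le_succ ((card_insert_le _ _).trans (by omega))))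
        fun m hm => by
          by_cases h2 : m = k
          · rw [h2]; exact h
          · simp only [mem_insert, not_or] at hm
            rw [h5 l hl m (by simp [hm, h2]), h5 l' hl' m (by simp [hm, h2])]
      refine ha.not_near hR.le k ⟨c l, hc l hl, fun m hm => ?_⟩
      simp only [mem_insert, not_or] at hm
      rw [update_of_ne hm.1]
      by_cases h2 : m = l
      · rw [h8]; exact h5 l' hl' m (by simp [hm, h2 ▸ hne])
      · exact h5 l hl m (by simp [hm, h2])
  rw [card_compl, card_compl, card_pair hab, card_insert_of_notMem hk, hR, H.card] at h7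
  have := card_le_univ ({a, b} : Finset A)
  rw [card_pair hab] at this
  omega

omit [DecidableEq A] in
lemma Mds.line_exists (H : Mds C r) (hR : R.card = r + 1) {k : K} (hk : k ∉ R)
    (h : ¬Near C x (insert k R)) : ∃ a, Far C r (update x k a) R := by
  by_contra! hc
  choose f hf using fun a => exists_near hR k (hc a)
  have h1 : ∀ a, f a ∈ (insert k R)ᶜ := fun a => mem_compl.2 fun h2 =>
    h (((hf a).mono (insert_subset h2 (subset_insert _ _))).swap fun m hm =>
      update_of_ne (fun t => hm (by simp [t])) _ _)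
  have h2 := card_le_card_of_injOn (s := univ) (t := (insert k R)ᶜ) f (fun a _ => h1 a)
    fun a _ b _ hab => by
      obtain ⟨c, h3, h4⟩ := hf a
      obtain ⟨c', h5, h6⟩ := hf b
      rw [← hab] at h6
      obtain rfl := H.uniq c h3 c' h5 (insert k (insert (f a) R))
        ((card_insert_le _ _).trans (Nat.succ_le_succ ((card_insert_le _ _).trans (by omega))))
        fun m hm => by
          rw [mem_insert, not_or] at hm
          rw [h4 m hm.2, h6 m hm.2, update_of_ne hm.1, update_of_ne hm.1]
      have h7 : k ∉ insert (f a) R := fun t => (mem_insert.1 t).elim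
        (fun t => mem_compl.1 (h1 a) (by simp [← t])) hk
      have := (h4 k h7).symm.trans (h6 k h7)
      rwa [update_self, update_self] at this
  rw [card_compl, card_insert_of_notMem hk, hR, H.card, card_univ] at h2
  have : Nonempty A := ⟨x k⟩
  have := Fintype.card_pos (α := A)
  omega

omit [DecidableEq A] in
lemma Mds.partner (H : Mds C r) (hS : S.card = r) {j l l' : K} (h : ¬Near C x (insert j S))
    (h1 : Near C x (insert l (insert j S))) (h2 : Near C x (insert l' (insert j S))) : l = l' := by
  obtain ⟨c, hc, h1⟩ := h1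
  obtain ⟨c', hc', h2⟩ := h2
  obtain rfl := H.uniq c hc c' hc' (insert l (insert l' (insert j S)))
    ((card_insert_le _ _).trans (Nat.succ_le_succ ((card_insert_le _ _).trans
      (Nat.succ_le_succ ((card_insert_le _ _).trans (by omega)))))) fun m hm => by
    simp only [mem_insert, not_or] at hm
    rw [h1 m (by simp [hm]), h2 m (by simp [hm])]
  by_contra hne
  refine h ⟨c, hc, fun m hm => ?_⟩
  by_cases h3 : m = l
  · exact h2 m fun t => (mem_insert.1 t).elim (fun t => hne (h3.symm.trans t)) hm
  · exact h1 m fun t => (mem_insert.1 t).elim h3 hm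

omit [DecidableEq A] in
lemma Mds.parity (H : Mds C r) (hS : S.card = r) (h : ∀ j, ¬Near C x (insert j S)) (P : Finset K)
    (hP : ∀ j, j ∈ P ↔ j ∉ S ∧ ¬Far C r x (insert j S)) : Even P.card := by
  have h0 : ∀ j ∈ P, ∃ l, Near C x (insert l (insert j S)) := fun j hj =>
    exists_near (by rw [card_insert_of_notMem ((hP j).1 hj).1, hS]) j ((hP j).1 hj).2
  choose f hf using h0
  have h1 : ∀ j hj, f j hj ∉ insert j S := fun j hj t => h j (by
    have := hf j hj; rwa [insert_eq_of_mem t] at this)
  have h2 : ∀ j hj, f j hj ∈ P := fun j hj => (hP _).2 ⟨fun t => h1 j hj (mem_insert_of_mem t),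
    fun t => t.not_near ((card_insert_le _ _).trans (by omega)) j (by
      rw [Finset.insert_comm]; exact hf j hj)⟩
  have h3 := sum_involution (s := P) (f := fun _ => (1 : ZMod 2)) f (fun _ _ => by decide)
    (fun j hj _ t => h1 j hj (by simp [t])) h2 fun j hj =>
      H.partner hS (h _) (hf _ (h2 j hj)) (by rw [Finset.insert_comm]; exact hf j hj)
  rw [sum_const, nsmul_one] at h3
  exact (ZMod.natCast_eq_zero_iff_even).1 h3

omit [DecidableEq A] in
lemma Mds.exists_hole (H : Mds C r) (hq : Even (Fintype.card A)) (hS : S.card = r)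
    (h : ∀ j, ¬Near C x (insert j S)) : ∃ k, k ∉ S ∧ Far C r x (insert k S) := by
  by_contra! hc
  have h1 := H.parity hS h Sᶜ fun j => ⟨fun t => ⟨mem_compl.1 t, hc j (mem_compl.1 t)⟩,
    fun t => mem_compl.2 t.1⟩
  rw [card_compl, H.card, hS] at h1
  obtain ⟨a, ha⟩ := hq
  obtain ⟨b, hb⟩ := h1
  omega

lemma Mds.two_holes (H : Mds C r) (hq : Even (Fintype.card A)) (hS : S.card = r) {k k' : K}
    (hne : k ≠ k') (hk : k ∉ S) (hk' : k' ∉ S) (e : Far C r x (insert k S))
    (e' : Far C r x (insert k' S)) (j l : K) : ¬Near C x (insert j (insert l S)) := by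
  rintro ⟨c, hc, h1⟩
  have hc1 : ∀ m, (insert m S).card ≤ r + 1 := fun m => (card_insert_le _ _).trans (by omega)
  have h : ∀ m, ¬Near C x (insert m S) := fun m t =>
    e.not_near (hc1 k) m (t.mono (insert_subset_insert _ (subset_insert _ _)))
  have hl : c l ≠ x l := fun h2 => h j ⟨c, hc, fun m hm => by
    by_cases h3 : m = l
    · rw [h3, h2]
    · exact h1 m (by simp at hm; simp [hm, h3])⟩
  have hj : c j ≠ x j := fun h2 => h l ⟨c, hc, fun m hm => by
    by_cases h3 : m = j
    · rw [h3, h2]
    · exact h1 m (by simp at hm; simp [hm, h3])⟩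
  have hjS : j ∉ insert l S := fun t => h l ⟨c, hc, by rwa [insert_eq_of_mem t] at h1⟩
  have hlS : l ∉ insert j S := fun t => h j ⟨c, hc, by
    rwa [Finset.insert_comm, insert_eq_of_mem t] at h1⟩
  have h2 : ∀ a, Near C (update x j a) (insert j (insert l S)) := fun a =>
    ⟨c, hc, fun m hm => by rw [update_of_ne fun t => hm (by simp [t]), h1 m hm]⟩
  have h3 : ∀ a k, k ∉ S → Far C r (update x j a) (insert k S) → k ∈ (insert j (insert l S))ᶜ :=
    fun a k h4 h5 => by
      have h6 : k ≠ j := fun t => h5.not_near (hc1 k) l (by rw [t, Finset.insert_comm]; exact h2 a)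
      have h7 : k ≠ l := fun t => h5.not_near (hc1 k) j (by rw [t]; exact h2 a)
      simp [h4, h6, h7]
  have h4 : ∀ a, a ≠ c j → ∃ k, k ∉ S ∧ Far C r (update x j a) (insert k S) := fun a ha =>
    H.exists_hole hq hS fun m ⟨c', hc', h5⟩ => by
      obtain rfl := H.uniq c hc c' hc' (insert j (insert l (insert m S)))
        ((card_insert_le _ _).trans (Nat.succ_le_succ ((card_insert_le _ _).trans
          (Nat.succ_le_succ (hc1 m))))) fun s hs => by
        simp only [mem_insert, not_or] at hs
        rw [h1 s (by simp [hs]), h5 s (by simp [hs]), update_of_ne hs.1]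
      by_cases hm : j = m
      · exact hl (by rw [h5 l (hm ▸ hlS), update_of_ne fun t => hlS (by simp [t])])
      · exact ha (by
          rw [h5 j fun t => (mem_insert.1 t).elim hm fun t => hjS (mem_insert_of_mem t),
            update_self])
  have : Nonempty K := ⟨j⟩
  choose! g hg using h4
  have h5 : ∀ a b k, k ∉ S → Far C r (update x j a) (insert k S) →
      Far C r (update x j b) (insert k S) → a = b := fun a b k h6 h7 h8 =>
    H.line_unique (by rw [card_insert_of_notMem h6, hS]) (fun t => (mem_insert.1 t).elim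
      (fun t => mem_compl.1 (h3 a k h6 h7) (by simp [t])) fun t => hjS (mem_insert_of_mem t)) h7 h8
  rw [← update_eq_self j x] at e e'
  have h6 := card_le_card_of_injOn (s := (univ.erase (c j)).erase (x j))
    (t := (((insert j (insert l S))ᶜ).erase k).erase k') g (fun a ha => by
      have h7 := ne_of_mem_erase (mem_coe.1 ha)
      have h8 := hg a (ne_of_mem_erase (mem_of_mem_erase (mem_coe.1 ha)))
      exact mem_coe.2 (mem_erase.2 ⟨fun h => h7 (h5 _ _ _ hk' (h ▸ h8.2) e'),
        mem_erase.2 ⟨fun h => h7 (h5 _ _ _ hk (h ▸ h8.2) e), h3 a _ h8.1 h8.2⟩⟩))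
    fun a ha b hb hab => by
      have h7 := hg a (ne_of_mem_erase (mem_of_mem_erase (mem_coe.1 ha)))
      exact h5 _ _ _ h7.1 h7.2 (hab ▸ (hg b (ne_of_mem_erase (mem_of_mem_erase (mem_coe.1 hb)))).2)
  have h7 := card_erase_add_one (mem_erase.2 ⟨Ne.symm hne, h3 _ _ hk' e'⟩ : k' ∈ Finset.erase _ k)
  have h8 := card_erase_add_one (h3 _ _ hk e)
  have h9 := card_erase_add_one (mem_erase.2 ⟨hj.symm, mem_univ _⟩ : x j ∈ univ.erase (c j))
  have h10 := card_erase_add_one (mem_univ (c j))
  rw [card_compl, card_insert_of_notMem hjS,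
    card_insert_of_notMem fun t => hlS (mem_insert_of_mem t), hS, H.card] at h8
  rw [card_univ] at h10
  omega

lemma Mds.step (H : Mds C r) (hq : Even (Fintype.card A)) (i : ℕ) : ∀ (S : Finset K) (b : K)
    (x : K → A), S.card + i = r + 1 → b ∉ S → Far C r x (insert b S) →
    ∃ a, Far C r (update x b a) S := by
  induction i with
  | zero =>
    exact fun S b x hS hb h => H.line_exists hS hb
      (h _ Subset.rfl ((card_insert_le _ _).trans (by omega)))
  | succ i ih =>
    intro S b x hS hb h
    have : Nonempty A := ⟨x b⟩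
    have hA := Fintype.card_pos (α := A)
    obtain ⟨b', hb'⟩ : ∃ b', b' ∉ insert b S := by
      by_contra! t
      have := card_insert_le b S
      rw [eq_univ_of_forall t, card_univ, H.card] at this
      omega
    rw [mem_insert, not_or] at hb'
    obtain ⟨a, h1⟩ := ih (insert b' S) b x (by rw [card_insert_of_notMem hb'.2]; omega)
      (fun t => (mem_insert.1 t).elim (fun t => hb'.1 t.symm) hb)
      (h.mono (insert_subset_insert _ (subset_insert _ _)))
    have h2 : Far C r (update x b a) (insert b S) :=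
      h.swap fun m hm => (update_of_ne (fun t => hm (by simp [t])) _ _).symm
    refine ⟨a, fun T h3 h4 h5 => ?_⟩
    obtain ⟨U, h6, -, h7⟩ := exists_subsuperset_card_eq (n := r + 2) (subset_univ T) h4
      (by rw [card_univ, H.card]; omega)
    have h8 := h5.mono h6
    have h9 := h3.trans h6
    have h10 : b ∉ U := fun t => h2 U (insert_subset t h9) h7.le h8
    have h11 : b' ∉ U := fun t => h1 U (insert_subset t h9) h7.le h8
    obtain ⟨V, h12, h13, h14⟩ := exists_subsuperset_card_eq (n := r) h9 (by omega) (by omega)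
    have h15 := card_sdiff_add_card_eq_card h13
    obtain ⟨j, l, -, h16⟩ := card_eq_two.1 (show (U \ V).card = 2 by omega)
    refine H.two_holes hq h14 hb'.1 (fun t => h11 (h13 t)) (fun t => h10 (h13 t))
      (h1.mono (insert_subset_insert _ h12)) (h2.mono (insert_subset_insert _ h12)) j l
      (h8.mono fun m hm => ?_)
    by_cases h17 : m ∈ V
    · simp [h17]
    · have : m ∈ U \ V := mem_sdiff.2 ⟨hm, h17⟩
      rw [h16] at this
      simp only [mem_insert, mem_singleton] at this ⊢
      tauto

lemma Mds.lift (H : Mds C r) (hq : Even (Fintype.card A)) (T : Finset K) : ∀ x : K → A,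
    T.card ≤ r + 2 → Far C r x T → ∃ u, Far C r u ∅ ∧ ∀ m, m ∉ T → u m = x m := by
  induction T using Finset.induction_on with
  | empty => exact fun x _ h => ⟨x, h, fun _ _ => rfl⟩
  | insert b S hb ih =>
    intro x hT h
    rw [card_insert_of_notMem hb] at hT
    obtain ⟨a, ha⟩ := H.step hq (r + 1 - S.card) S b x (by omega) hb h
    obtain ⟨u, h1, h2⟩ := ih _ (by omega) ha
    refine ⟨u, h1, fun m hm => ?_⟩
    rw [mem_insert, not_or] at hm
    rw [h2 m hm.2, update_of_ne hm.1]

lemma Mds.far_eq (H : Mds C r) (hx : Far C r x ∅) (hy : Far C r y ∅) (hT : T.card ≤ r + 2)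
    (h : ∀ m, m ∉ T → x m = y m) : x = y := by
  funext b
  by_contra hb
  have h1 : b ∈ T := by by_contra t; exact hb (h b t)
  have h2 := card_erase_add_one h1
  have h3 := card_erase_add_one (mem_univ b)
  have : Nonempty A := ⟨x b⟩
  have hA := Fintype.card_pos (α := A)
  rw [card_univ, H.card] at h3
  obtain ⟨R, h4, h5, h6⟩ := exists_subsuperset_card_eq (n := r + 1)
    (erase_subset_erase b (subset_univ T)) (by omega) (by omega)
  refine hb (H.line_unique (x := x) h6 (fun t => notMem_erase b _ (h5 t))
    (by rw [update_eq_self]; exact hx.mono (empty_subset _))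
    ((hy.mono (empty_subset _)).swap fun m hm => ?_))
  by_cases h7 : m = b
  · rw [h7, update_self]
  · rw [update_of_ne h7, h m fun t => hm (h4 (mem_erase.2 ⟨h7, t⟩))]

lemma Mds.even_of_far (H : Mds C r) (h2 : 1 < Fintype.card A) (hx : Far C r x ∅) :
    Even (Fintype.card A) := by
  obtain ⟨R, -, hR⟩ := exists_subset_card_eq (s := (univ : Finset K)) (n := r + 1)
    (by rw [card_univ, H.card]; omega)
  obtain ⟨b, S, hb, rfl, hS⟩ := card_eq_succ.1 hR
  have : Nontrivial A := Fintype.one_lt_card_iff_nontrivial.1 h2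
  obtain ⟨a, ha⟩ := exists_ne (x b)
  have h1 : Far C r (update x b a) (insert b S) := (hx.mono (empty_subset _)).swap fun m hm =>
    (update_of_ne (fun t => hm (by simp [t])) _ _).symm
  have h3 := H.parity (x := update x b a) hS (fun j t => h1.not_near hR.le j
    (t.mono (insert_subset_insert _ (subset_insert _ _)))) (insert b S)ᶜ fun j => by
      rw [mem_compl, mem_insert, not_or]
      refine ⟨fun t => ⟨t.2, fun h4 => ha (H.line_unique (x := x) (k := b)
        (by rw [card_insert_of_notMem t.2, hS])
        (fun s => (mem_insert.1 s).elim (fun s => t.1 s.symm) hb) h4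
        (by rw [update_eq_self]; exact hx.mono (empty_subset _)))⟩,
        fun t => ⟨fun s => t.2 (s ▸ h1), t.1⟩⟩
  rwa [card_compl, hR, H.card, add_assoc, Nat.add_sub_cancel] at h3

end Pool.Agent.FS.Supercode
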